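import Pool.Agent.Q120.SM.Stm

set_option autoImplicit false

namespace Pool.Agent.Q31.SM.GAP

open Finset MeasureTheory Filter Topology Polynomial Pool.Agent.Q120.GM Pool.Agent.Q120.SM

/-! ### polynomials -/

lemma eventually_pos (r : ℝ[X]) (h : 0 < r.leadingCoeff) : ∀ᶠ x : ℝ in atTop, 0 < r.eval x := by
  by_cases hd : 0 < r.degree
  · exact (r.tendsto_atTop_of_leadingCoeff_nonneg hd h.le).eventually_gt_atTop 0
  · have h1 : r.degree ≤ 0 := not_lt.mp hd
    rw [eq_C_of_degree_le_zero h1, leadingCoeff_C] at h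
    rw [eq_C_of_degree_le_zero h1]
    simp only [eval_C]
    exact Eventually.of_forall fun _ => h

lemma poly_mono (p : ℤ[X]) (hl : 0 < p.leadingCoeff) (hd : 0 < p.natDegree) :
    ∃ N : ℕ, ∀ n m : ℕ, N ≤ n → n < m → p.eval (n : ℤ) < p.eval (m : ℤ) := by
  set q : ℝ[X] := p.map (Int.castRingHom ℝ) with hq
  have hinj : Function.Injective (Int.castRingHom ℝ) := Int.cast_injective
  have hqd : q.natDegree = p.natDegree := natDegree_map_eq_of_injective hinj p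
  have hqc : q.coeff p.natDegree = (p.leadingCoeff : ℝ) := by
    rw [hq, coeff_map]
    rfl
  have h1 : (derivative q).natDegree = q.natDegree - 1 :=
    natDegree_derivative q
  have h2 : 0 < (derivative q).leadingCoeff := by
    rw [leadingCoeff, h1, coeff_derivative, hqd, Nat.sub_add_cancel hd, hqc]
    have : (0:ℝ) < p.leadingCoeff := by exact_mod_cast hl
    positivity
  obtain ⟨M, hM⟩ := eventually_atTop.mp (eventually_pos _ h2)
  have hmono : StrictMonoOn (fun x : ℝ => q.eval x) (Set.Ici M) := by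
    refine strictMonoOn_of_deriv_pos (convex_Ici M) q.continuous.continuousOn fun x hx => ?_
    rw [interior_Ici, Set.mem_Ioi] at hx
    rw [Polynomial.deriv]
    exact hM x hx.le
  have hcast : ∀ n : ℕ, q.eval (n : ℝ) = ((p.eval (n : ℤ) : ℤ) : ℝ) := by
    intro n
    have := eval_intCast_map (Int.castRingHom ℝ) p (n : ℤ)
    simpa [hq] using this
  refine ⟨⌈M⌉₊, fun n m hn hnm => ?_⟩
  have h3 : M ≤ n := (Nat.le_ceil M).trans (by exact_mod_cast hn)
  have h4 : (n:ℝ) < m := by exact_mod_cast hnm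
  have h5 := hmono (Set.mem_Ici.mpr h3) (Set.mem_Ici.mpr (h3.trans h4.le)) h4
  simp only [hcast] at h5
  exact_mod_cast h5

lemma poly_growth (p : ℤ[X]) (hl : 0 < p.leadingCoeff) (hd : 0 < p.natDegree) :
    ∃ N : ℕ, ∀ n : ℕ, N ≤ n → (n : ℤ) ≤ 2 * p.eval (n : ℤ) := by
  obtain ⟨N, hN⟩ := poly_mono p hl hd
  have h1 : ∀ j : ℕ, p.eval (N : ℤ) + j ≤ p.eval ((N + j : ℕ) : ℤ) := by
    intro j
    induction j with
    | zero => simp
    | succ j ih =>
      have := hN (N + j) (N + (j + 1)) (by omega) (by omega)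
      push_cast at this ih ⊢
      omega
  refine ⟨N + (2 * (N : ℤ) - 2 * p.eval (N : ℤ)).toNat, fun n hn => ?_⟩
  obtain ⟨j, rfl⟩ : ∃ j, n = N + j := ⟨n - N, by omega⟩
  have h2 := h1 j
  have h3 := Int.self_le_toNat (2 * (N : ℤ) - 2 * p.eval (N : ℤ))
  push_cast at h2 ⊢
  omega

lemma poly_ne (p q : ℤ[X]) (h : p ≠ q) : ∃ N : ℕ, ∀ n : ℕ, N ≤ n → p.eval (n : ℤ) ≠ q.eval (n : ℤ) := by
  have h1 : p - q ≠ 0 := sub_ne_zero.mpr h
  have h2 : {n : ℕ | (p - q).eval (n : ℤ) = 0}.Finite := by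
    have h3 : {z : ℤ | (p - q).IsRoot z}.Finite := finite_setOfPred_isRoot h1
    exact h3.preimage (Nat.cast_injective.injOn)
  obtain ⟨N, hN⟩ := h2.bddAbove
  refine ⟨N + 1, fun n hn he => ?_⟩
  have := hN (show n ∈ {n : ℕ | (p - q).eval (n : ℤ) = 0} by simp [he])
  omega

/-- everything needed about the system -/
structure Nice {k : ℕ} (P : Fin k → ℤ[X]) (N : ℕ) : Prop where
  one : 1 ≤ N
  grow : ∀ n, N ≤ n → ∀ i, (n : ℤ) ≤ 2 * (P i).eval (n : ℤ)
  mono : ∀ i, ∀ n m : ℕ, N ≤ n → n < m → (P i).eval (n : ℤ) < (P i).eval (m : ℤ)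
  inj : ∀ n, N ≤ n → Function.Injective fun i => (P i).eval (n : ℤ)

lemma exists_nice {k : ℕ} {P : Fin k → ℤ[X]} (hP : Sys k P) : ∃ N, Nice P N := by
  choose N1 h1 using fun i => poly_mono (P i) (hP.lead i) (hP.deg i)
  choose N2 h2 using fun i => poly_growth (P i) (hP.lead i) (hP.deg i)
  have h3 : ∀ ij : Fin k × Fin k, ∃ N : ℕ, ij.1 ≠ ij.2 → ∀ n : ℕ, N ≤ n →
      (P ij.1).eval (n : ℤ) ≠ (P ij.2).eval (n : ℤ) := by
    intro ij
    by_cases h : ij.1 = ij.2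
    · exact ⟨0, fun h' => absurd h h'⟩
    · obtain ⟨N, hN⟩ := poly_ne (P ij.1) (P ij.2) (fun e => h (hP.inj e))
      exact ⟨N, fun _ => hN⟩
  choose N3 h3 using h3
  set M1 := ∑ i, N1 i with hM1
  set M2 := ∑ i, N2 i with hM2
  set M3 := ∑ i, N3 i with hM3
  have b1 : ∀ i, N1 i ≤ M1 := fun i => Finset.single_le_sum (f := N1) (fun _ _ => Nat.zero_le _) (mem_univ i)
  have b2 : ∀ i, N2 i ≤ M2 := fun i => Finset.single_le_sum (f := N2) (fun _ _ => Nat.zero_le _) (mem_univ i)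
  have b3 : ∀ i, N3 i ≤ M3 := fun i => Finset.single_le_sum (f := N3) (fun _ _ => Nat.zero_le _) (mem_univ i)
  refine ⟨M1 + M2 + M3 + 1, ⟨by omega, ?_, ?_, ?_⟩⟩
  · intro n hn i
    exact h2 i n (by have := b2 i; omega)
  · intro i n m hn hnm
    exact h1 i n m (by have := b1 i; omega) hnm
  · intro n hn i j hij
    by_contra hne
    exact h3 (i, j) hne n (by have := b3 (i, j); omega) hij

/-! ### the sets of values -/

/-- the set of the values -/
noncomputable def U {k : ℕ} (P : Fin k → ℤ[X]) (n : ℕ) : Finset ℕ :=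
  univ.image (fun i => ((P i).eval (n : ℤ)).toNat)

section

variable {k : ℕ} {P : Fin k → ℤ[X]} {N : ℕ}

lemma Nice.pos (h : Nice P N) {n : ℕ} (hn : N ≤ n) (i : Fin k) : 0 < (P i).eval (n : ℤ) := by
  have h1 := h.grow n hn i
  have h2 := h.one
  omega

lemma Nice.toNat (h : Nice P N) {n : ℕ} (hn : N ≤ n) (i : Fin k) :
    ((((P i).eval (n : ℤ)).toNat : ℕ) : ℤ) = (P i).eval (n : ℤ) :=
  Int.toNat_of_nonneg (h.pos hn i).le

lemma Nice.occ (h : Nice P N) {n : ℕ} (hn : N ≤ n) (S : Set ℕ) : Occ S P n ↔ ∀ v ∈ U P n, v ∈ S := by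
  constructor
  · intro h1 v hv
    rw [U, mem_image] at hv
    obtain ⟨i, -, rfl⟩ := hv
    obtain ⟨m, hm, he⟩ := h1 i
    rw [← he, Int.toNat_natCast]
    exact hm
  · intro h1 i
    exact ⟨_, h1 _ (mem_image_of_mem _ (mem_univ i)), h.toNat hn i⟩

lemma Nice.injOn (h : Nice P N) {n : ℕ} (hn : N ≤ n) :
    Function.Injective fun i => ((P i).eval (n : ℤ)).toNat := by
  intro i j hij
  apply h.inj n hn
  simp only at hij ⊢
  rw [← h.toNat hn i, ← h.toNat hn j, hij]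

lemma Nice.card (h : Nice P N) {n : ℕ} (hn : N ≤ n) : (U P n).card = k := by
  rw [U, card_image_of_injective _ (h.injOn hn), card_univ, Fintype.card_fin]

lemma Nice.sum (h : Nice P N) {n : ℕ} (hn : N ≤ n) : ∑ v ∈ U P n, (v : ℤ) = ∑ i, (P i).eval (n : ℤ) := by
  rw [U, sum_image (fun i _ j _ hij => h.injOn hn hij)]
  exact sum_congr rfl fun i _ => h.toNat hn i

lemma Nice.ne_of_lt (hk : 1 ≤ k) (h : Nice P N) {n m : ℕ} (hn : N ≤ n) (hnm : n < m) : U P n ≠ U P m := by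
  intro he
  have h1 := h.sum hn
  rw [he, h.sum (by omega : N ≤ m)] at h1
  have h2 : ∑ i, (P i).eval (n : ℤ) < ∑ i, (P i).eval (m : ℤ) := by
    refine sum_lt_sum_of_nonempty ⟨⟨0, hk⟩, mem_univ _⟩ fun i _ => h.mono i n m hn hnm
  omega

lemma Nice.ne (hk : 1 ≤ k) (h : Nice P N) {n m : ℕ} (hn : N ≤ n) (hm : N ≤ m) (hnm : n ≠ m) :
    U P n ≠ U P m := by
  rcases lt_or_gt_of_ne hnm with h1 | h1
  · exact h.ne_of_lt hk hn h1
  · exact (h.ne_of_lt hk hm h1).symm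

lemma Nice.card_union (hk : 1 ≤ k) (h : Nice P N) {n m : ℕ} (hn : N ≤ n) (hm : N ≤ m) (hnm : n ≠ m) :
    k + 1 ≤ (U P n ∪ U P m).card := by
  by_contra hcon
  push Not at hcon
  have h1 : (U P n ∪ U P m).card ≤ (U P n).card := by rw [h.card hn]; omega
  have h2 : U P n = U P n ∪ U P m := eq_of_subset_of_card_le subset_union_left h1
  have h3 : (U P n ∪ U P m).card ≤ (U P m).card := by rw [h.card hm]; omega
  have h4 : U P m = U P n ∪ U P m := eq_of_subset_of_card_le subset_union_right h3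
  exact h.ne hk hn hm hnm (h2.trans h4.symm)

/-- few windows meet a given one -/
lemma Nice.few (h : Nice P N) {J : Finset ℕ} (hJ : ∀ l ∈ J, N ≤ l) {j : ℕ} (hj : N ≤ j) :
    (J.filter (fun l => l ≠ j ∧ ¬ Disjoint (U P l) (U P j))).card ≤ k ^ 2 := by
  have hsub : J.filter (fun l => l ≠ j ∧ ¬ Disjoint (U P l) (U P j)) ⊆
      (univ : Finset (Fin k × Fin k)).biUnion fun ab =>
        J.filter (fun l => (P ab.1).eval (l : ℤ) = (P ab.2).eval (j : ℤ)) := by
    intro l hl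
    rw [mem_filter] at hl
    obtain ⟨hlJ, -, hd⟩ := hl
    rw [not_disjoint_iff] at hd
    obtain ⟨v, hv1, hv2⟩ := hd
    rw [U, mem_image] at hv1 hv2
    obtain ⟨a, -, ha⟩ := hv1
    obtain ⟨b, -, hb⟩ := hv2
    rw [mem_biUnion]
    refine ⟨(a, b), mem_univ _, ?_⟩
    rw [mem_filter]
    refine ⟨hlJ, ?_⟩
    simp only
    rw [← h.toNat (hJ l hlJ) a, ← h.toNat hj b, ha, hb]
  refine (card_le_card hsub).trans ?_
  refine (card_biUnion_le_card_mul _ _ 1 ?_).trans ?_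
  · intro ab _
    rw [card_le_one]
    intro l hl l' hl'
    rw [mem_filter] at hl hl'
    by_contra hne
    rcases lt_or_gt_of_ne hne with h1 | h1
    · have := h.mono ab.1 l l' (hJ l hl.1) h1
      rw [hl.2, hl'.2] at this
      exact lt_irrefl _ this
    · have := h.mono ab.1 l' l (hJ l' hl'.1) h1
      rw [hl.2, hl'.2] at this
      exact lt_irrefl _ this
  · rw [card_univ, Fintype.card_prod, Fintype.card_fin]
    nlinarith

end

/-! ### the probabilities -/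

lemma level_le {Q v : ℕ} {y : ℝ} (hy : 1 < y) (hv : y ≤ v) :
    level Q v ≤ (Q : ℝ) / Nat.totient Q / Real.log y := by
  have h1 : 0 < Real.log y := Real.log_pos hy
  have h2 : Real.log y ≤ Real.log v := Real.log_le_log (by linarith) hv
  have h3 : (0:ℝ) ≤ (Q : ℝ) / Nat.totient Q := by positivity
  unfold level
  split_ifs with h
  · refine (min_le_right _ _).trans ?_
    gcongr
  · positivity

lemma prod_level_le {Q : ℕ} {T : Finset ℕ} {q : ℝ} {m : ℕ} (hq1 : q ≤ 1) (h : ∀ v ∈ T, level Q v ≤ q)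
    (hm : m ≤ T.card) (hq0 : 0 ≤ q) : ∏ v ∈ T, level Q v ≤ q ^ m := by
  calc ∏ v ∈ T, level Q v ≤ ∏ _v ∈ T, q := prod_le_prod (fun v _ => level_nonneg Q v) h
    _ = q ^ T.card := prod_const q
    _ ≤ q ^ m := pow_le_pow_of_le_one hq0 hq1 hm

lemma exp_le_one_sub {η w : ℝ} (hη : 0 < η) (hw0 : 0 ≤ w) (hw : w ≤ η / (1 + η)) :
    Real.exp (-((1 + η) * w)) ≤ 1 - w := by
  have h1 : 1 + (1 + η) * w ≤ Real.exp ((1 + η) * w) := by
    have := Real.add_one_le_exp ((1 + η) * w)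
    linarith
  have h2 : 0 < 1 + (1 + η) * w := by positivity
  have h3 : (1 + η) * w ≤ η := by
    rw [le_div_iff₀ (by linarith)] at hw
    linarith
  rw [Real.exp_neg]
  calc (Real.exp ((1 + η) * w))⁻¹ ≤ (1 + (1 + η) * w)⁻¹ := inv_anti₀ h2 h1
    _ ≤ 1 - w := by
      rw [inv_le_iff_one_le_mul₀ h2]
      nlinarith

lemma noOcc_eq {k : ℕ} {P : Fin k → ℤ[X]} {N : ℕ} (h : Nice P N) {Ω : Type} (A : Ω → Set ℕ) {m : ℕ}
    (hm : N ≤ m) (H : ℕ) : {ω | NoOcc (A ω) P m H} = Pool.Agent.Q120.GM.none A (Ioc m (m + H)) (U P) := by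
  ext ω
  simp only [Set.mem_setOf_eq, NoOcc, Pool.Agent.Q120.GM.none]
  constructor
  · intro h1 j hj h2
    rw [mem_Ioc] at hj
    exact h1 j hj.1 hj.2 ((h.occ (by omega) _).mpr h2)
  · intro h1 n hn1 hn2 h2
    exact h1 n (mem_Ioc.mpr ⟨hn1, hn2⟩) ((h.occ (by omega) _).mp h2)

section

variable {Ω : Type} [MeasurableSpace Ω] {μ : Measure Ω} [IsProbabilityMeasure μ] {A : Ω → Set ℕ} {Q k : ℕ}
  {P : Fin k → ℤ[X]} {N : ℕ}

/-- upper bound (Janson) -/
lemma upper (hk : 1 ≤ k) (h : Nice P N) (hA : IsModel μ (level Q) A) {m H : ℕ} (hm : N ≤ m) {q : ℝ}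
    (hq0 : 0 ≤ q) (hq1 : q ≤ 1) (hq : ∀ n, m < n → ∀ v ∈ U P n, level Q v ≤ q) :
    μ.real {ω | NoOcc (A ω) P m H} ≤
      Real.exp (-(∑ n ∈ Ioc m (m + H), ∏ v ∈ U P n, level Q v) + H * (k ^ 2 * q ^ (k + 1))) := by
  rw [noOcc_eq h A hm H]
  refine (janson hA (Ioc m (m + H)) (U P)).trans ?_
  rw [Real.exp_le_exp]
  have h1 : ∀ j ∈ Ioc m (m + H), ∑ l ∈ Ioc m (m + H) with l ≠ j ∧ ¬ Disjoint (U P l) (U P j),
      ∏ i ∈ U P l ∪ U P j, level Q i ≤ k ^ 2 * q ^ (k + 1) := by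
    intro j hj
    have hj' := mem_Ioc.mp hj
    have h2 : ∀ l ∈ (Ioc m (m + H)).filter (fun l => l ≠ j ∧ ¬ Disjoint (U P l) (U P j)),
        ∏ i ∈ U P l ∪ U P j, level Q i ≤ q ^ (k + 1) := by
      intro l hl
      rw [mem_filter] at hl
      have hl' := mem_Ioc.mp hl.1
      refine prod_level_le hq1 ?_ (h.card_union hk (by omega) (by omega) hl.2.1) hq0
      intro v hv
      rw [mem_union] at hv
      rcases hv with hv | hv
      · exact hq l hl'.1 v hv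
      · exact hq j hj'.1 v hv
    have h3 := h.few (J := Ioc m (m + H)) (fun l hl => by have := mem_Ioc.mp hl; omega)
      (j := j) (by omega)
    calc ∑ l ∈ Ioc m (m + H) with l ≠ j ∧ ¬ Disjoint (U P l) (U P j), ∏ i ∈ U P l ∪ U P j, level Q i
        ≤ ∑ l ∈ Ioc m (m + H) with l ≠ j ∧ ¬ Disjoint (U P l) (U P j), q ^ (k + 1) := sum_le_sum h2
      _ = ((Ioc m (m + H)).filter (fun l => l ≠ j ∧ ¬ Disjoint (U P l) (U P j))).card * q ^ (k + 1) := by
        rw [sum_const, nsmul_eq_mul]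
      _ ≤ k ^ 2 * q ^ (k + 1) := by
        have h4 : (((Ioc m (m + H)).filter (fun l => l ≠ j ∧ ¬ Disjoint (U P l) (U P j))).card : ℝ) ≤ k ^ 2 := by
          exact_mod_cast h3
        gcongr
  have h5 : ∑ j ∈ Ioc m (m + H), ∑ l ∈ Ioc m (m + H) with l ≠ j ∧ ¬ Disjoint (U P l) (U P j),
      ∏ i ∈ U P l ∪ U P j, level Q i ≤ H * (k ^ 2 * q ^ (k + 1)) := by
    calc _ ≤ ∑ _j ∈ Ioc m (m + H), ((k:ℝ) ^ 2 * q ^ (k + 1)) := sum_le_sum h1
      _ = _ := by
        rw [sum_const, nsmul_eq_mul, Nat.card_Ioc]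
        simp
  linarith

/-- lower bound (Harris) -/
lemma lower (hk : 1 ≤ k) (h : Nice P N) (hA : IsModel μ (level Q) A) {m H : ℕ} (hm : N ≤ m) {q η : ℝ}
    (hη : 0 < η) (hq0 : 0 ≤ q) (hq1 : q ≤ 1) (hq2 : q ≤ η / (1 + η))
    (hq : ∀ n, m < n → ∀ v ∈ U P n, level Q v ≤ q) :
    Real.exp (-((1 + η) * ∑ n ∈ Ioc m (m + H), ∏ v ∈ U P n, level Q v)) ≤
      μ.real {ω | NoOcc (A ω) P m H} := by
  rw [noOcc_eq h A hm H]
  refine le_trans ?_ (harris hA (Ioc m (m + H)) (U P))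
  rw [mul_sum, ← sum_neg_distrib, Real.exp_sum]
  refine prod_le_prod (fun _ _ => (Real.exp_pos _).le) fun n hn => ?_
  have hn' := mem_Ioc.mp hn
  refine exp_le_one_sub hη (prod_nonneg fun v _ => level_nonneg Q v) ?_
  refine le_trans ?_ hq2
  have h1 : ∏ v ∈ U P n, level Q v ≤ q ^ 1 :=
    prod_level_le hq1 (hq n hn'.1) (by rw [h.card (by omega)]; exact hk) hq0
  simpa using h1

end

/-- the bound for the probabilities -/
lemma level_small {k : ℕ} {P : Fin k → ℤ[X]} {N : ℕ} (h : Nice P N) (Q : ℕ) :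
    ∀ᶠ x : ℝ in atTop, ∀ m : ℕ, x - 1 < m → ∀ n, m < n → ∀ v ∈ U P n,
      level Q v ≤ 2 * ((Q : ℝ) / Nat.totient Q) / Real.log x := by
  filter_upwards [eventually_ge_atTop (16:ℝ), eventually_ge_atTop ((N:ℝ) + 1)] with x hx hxN m hm n hmn v hv
  have hnN : N ≤ n := by
    have h1 : (N:ℝ) < m := by linarith
    have h2 : N < m := by exact_mod_cast h1
    omega
  rw [U, mem_image] at hv
  obtain ⟨i, -, rfl⟩ := hv
  have h1 := h.grow n hnN i
  have h2 := h.toNat hnN i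
  rw [← h2] at h1
  have h3 : (n:ℝ) ≤ 2 * ((((P i).eval (n : ℤ)).toNat : ℕ) : ℝ) := by exact_mod_cast h1
  have h4 : x - 1 < n := by
    have : (m:ℝ) < n := by exact_mod_cast hmn
    linarith
  have h5 : Real.sqrt x ≤ ((((P i).eval (n : ℤ)).toNat : ℕ) : ℝ) := by
    have h6 : Real.sqrt x ≤ x / 4 := by
      rw [Real.sqrt_le_left (by linarith)]
      nlinarith
    linarith
  have h7 : 1 < Real.sqrt x := by
    rw [Real.lt_sqrt (by norm_num)]
    linarith
  refine (level_le h7 h5).trans (le_of_eq ?_)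
  rw [Real.log_sqrt (by linarith)]
  field_simp

theorem t_GAP (hS : J_SUM) : J_GAP := by
  intro Ω _ μ _ A Q k P hQ hA hP hSQ c δ hc hδ
  obtain ⟨N, hN⟩ := exists_nice hP
  have hk := hP.pos
  set C1 : ℝ := 2 * ((Q : ℝ) / Nat.totient Q) with hC1
  have hC10 : 0 ≤ C1 := by rw [hC1]; positivity
  set D : ℝ := (∏ i, ((P i).natDegree : ℝ)) / SQ Q k P with hD
  have hD0 : 0 ≤ D := by
    rw [hD]
    refine div_nonneg (prod_nonneg fun i _ => Nat.cast_nonneg _) hSQ.le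
  set η : ℝ := δ / (2 * c + δ) with hη
  have hη0 : 0 < η := by rw [hη]; positivity
  have hη1 : (1 + η) * (c + δ / 2) = c + δ := by
    rw [hη]
    field_simp
    ring
  have hlog : Tendsto Real.log atTop atTop := Real.tendsto_log_atTop
  have e1 : ∀ᶠ x : ℝ in atTop, C1 / Real.log x ≤ 1 := by
    have : Tendsto (fun x : ℝ => C1 / Real.log x) atTop (𝓝 0) := hlog.const_div_atTop C1
    exact this.eventually_le_const one_pos
  have e2 : ∀ᶠ x : ℝ in atTop, C1 / Real.log x ≤ η / (1 + η) := by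
    have : Tendsto (fun x : ℝ => C1 / Real.log x) atTop (𝓝 0) := hlog.const_div_atTop C1
    exact this.eventually_le_const (by positivity)
  have e3 : ∀ᶠ x : ℝ in atTop, c * D * (k ^ 2 * C1 ^ (k + 1)) ≤ δ / 2 * Real.log x :=
    (hlog.const_mul_atTop (by linarith : 0 < δ / 2)).eventually_ge_atTop _
  filter_upwards [hS Q k P hQ hP hSQ c (δ / 2) hc (by linarith), level_small hN Q, e1, e2, e3,
    eventually_gt_atTop (1:ℝ), eventually_ge_atTop ((N:ℝ) + 1)] with x s1 s2 s3 s4 s5 s6 s7 m hm1 hm2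
  have hlx : 0 < Real.log x := Real.log_pos s6
  have hx0 : 0 < x := by linarith
  have hmN : N ≤ m := by
    have h1 : (N:ℝ) < m := by linarith
    have h2 : N < m := by exact_mod_cast h1
    omega
  have hq0 : 0 ≤ C1 / Real.log x := by positivity
  have hq := s2 m hm1
  have hsum := abs_le.mp (s1 m hm1 hm2)
  have hsum' : ∑ n ∈ Ioc m (m + ⌊c * LF Q k P x⌋₊), ∏ v ∈ univ.image (fun i => ((P i).eval (n : ℤ)).toNat),
      level Q v = ∑ n ∈ Ioc m (m + ⌊c * LF Q k P x⌋₊), ∏ v ∈ U P n, level Q v := rfl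
  rw [hsum'] at hsum
  obtain ⟨hs1, hs2⟩ := hsum
  constructor
  · refine (upper hk hN hA hmN hq0 s3 hq).trans ?_
    rw [Real.rpow_def_of_pos hx0, Real.exp_le_exp]
    have hLF : c * LF Q k P x = c * (D * Real.log x ^ (k + 1)) := rfl
    have hfl : ((⌊c * LF Q k P x⌋₊ : ℕ) : ℝ) ≤ c * (D * Real.log x ^ (k + 1)) := by
      rw [← hLF]
      refine Nat.floor_le ?_
      rw [hLF]
      positivity
    have hcorr : ((⌊c * LF Q k P x⌋₊ : ℕ) : ℝ) * (k ^ 2 * (C1 / Real.log x) ^ (k + 1)) ≤ δ / 2 * Real.log x := by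
      refine le_trans ?_ s5
      calc ((⌊c * LF Q k P x⌋₊ : ℕ) : ℝ) * (k ^ 2 * (C1 / Real.log x) ^ (k + 1))
          ≤ (c * (D * Real.log x ^ (k + 1))) * (k ^ 2 * (C1 / Real.log x) ^ (k + 1)) := by gcongr
        _ = c * D * (k ^ 2 * C1 ^ (k + 1)) := by
          rw [div_pow]
          field_simp
    nlinarith
  · refine le_trans ?_ (lower hk hN hA hmN hη0 hq0 s3 s4 hq)
    rw [Real.rpow_def_of_pos hx0, Real.exp_le_exp]
    have h1 : ∑ n ∈ Ioc m (m + ⌊c * LF Q k P x⌋₊), ∏ v ∈ U P n, level Q v ≤ (c + δ / 2) * Real.log x := by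
      linarith
    have h2 : (1 + η) * ∑ n ∈ Ioc m (m + ⌊c * LF Q k P x⌋₊), ∏ v ∈ U P n, level Q v ≤
        (1 + η) * ((c + δ / 2) * Real.log x) := by
      gcongr
    rw [← mul_assoc, hη1] at h2
    linarith

end Pool.Agent.Q31.SM.GAP
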